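import Pool.Agent.Helper62.DSH.StB

/-!
# Project DSH, module HPJ: projection in a weighted `L²` space of tensor valued functions
-/

set_option autoImplicit false

open Set Filter Topology MeasureTheory
open scoped ENNReal NNReal

noncomputable section

namespace Helper37.DSH

open Helper62.LH Helper62.DSH

/-- projection onto the closure of a space of square integrable functions -/
private theorem proj {H Ω : Type} [NormedAddCommGroup H] [InnerProductSpace ℝ H] [CompleteSpace H]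
    [MeasurableSpace Ω] (μ : Measure Ω) (S : Submodule ℝ (Ω → H)) (hS : ∀ β ∈ S, MemLp β 2 μ)
    (u0 : Ω → H) (h0 : MemLp u0 2 μ) :
    ∃ η : Ω → H, MemLp η 2 μ ∧ ∫ x, ‖η x‖ ^ 2 ∂μ ≤ ∫ x, ‖u0 x‖ ^ 2 ∂μ ∧
      (∀ β ∈ S, ∫ x, inner ℝ (η x) (β x) ∂μ = 0) ∧
      ∀ κ > 0, ∃ β ∈ S, MemLp (fun x => u0 x + β x - η x) 2 μ ∧
        ∫ x, ‖u0 x + β x - η x‖ ^ 2 ∂μ ≤ κ := by
  -- norms
  have nsq : ∀ f : Lp H 2 μ, ∫ x, ‖f x‖ ^ 2 ∂μ = ‖f‖ ^ 2 := by
    intro f
    rw [← real_inner_self_eq_norm_sq, L2.inner_def]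
    refine integral_congr_ae (Eventually.of_forall fun x => ?_)
    exact (real_inner_self_eq_norm_sq (f x)).symm
  let Φ : S →ₗ[ℝ] Lp H 2 μ :=
    { toFun := fun β => (hS β.1 β.2).toLp β.1
      map_add' := fun β γ => by
        exact MemLp.toLp_add (hS β.1 β.2) (hS γ.1 γ.2)
      map_smul' := fun c β => by
        exact MemLp.toLp_const_smul c (hS β.1 β.2) }
  have hΦ : ∀ β : S, (Φ β : Ω → H) =ᵐ[μ] β.1 := fun β => MemLp.coeFn_toLp (hS β.1 β.2)
  obtain ⟨V, hV⟩ : ∃ V : Submodule ℝ (Lp H 2 μ), V = (LinearMap.range Φ).topologicalClosure :=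
    ⟨_, rfl⟩
  have hVc : IsClosed (V : Set (Lp H 2 μ)) := by
    rw [hV]
    exact Submodule.isClosed_topologicalClosure _
  have hcs : CompleteSpace V := hVc.completeSpace_coe
  obtain ⟨U, hU⟩ : ∃ U : Lp H 2 μ, U = h0.toLp u0 := ⟨_, rfl⟩
  have hUa : (U : Ω → H) =ᵐ[μ] u0 := by
    rw [hU]
    exact MemLp.coeFn_toLp _
  obtain ⟨p, hp, hperp⟩ := Submodule.HasOrthogonalProjection.exists_orthogonal (K := V) U
  have hperp' : ∀ v ∈ V, inner ℝ v (U - p) = 0 := (Submodule.mem_orthogonal V (U - p)).1 hperp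
  have hrange : ∀ β : S, Φ β ∈ V := fun β => by
    rw [hV]
    exact Submodule.le_topologicalClosure _ ⟨β, rfl⟩
  refine ⟨(U - p : Lp H 2 μ), Lp.memLp _, ?_, ?_, ?_⟩
  · rw [nsq]
    have e1 : ∫ x, ‖u0 x‖ ^ 2 ∂μ = ‖U‖ ^ 2 := by
      rw [← nsq]
      refine integral_congr_ae ?_
      filter_upwards [hUa] with x hx
      rw [hx]
    rw [e1]
    have e2 : U = (U - p) + p := by abel
    have e3 : ‖U‖ ^ 2 = ‖U - p‖ ^ 2 + ‖p‖ ^ 2 := by
      have e4 := norm_add_sq_real (U - p) p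
      rw [← e2, real_inner_comm, hperp' p hp] at e4
      linarith
    nlinarith [sq_nonneg ‖p‖]
  · intro β hβ
    have e1 : inner ℝ (U - p) (Φ ⟨β, hβ⟩) = 0 := by
      rw [real_inner_comm]
      exact hperp' _ (hrange _)
    rw [L2.inner_def] at e1
    rw [← e1]
    refine integral_congr_ae ?_
    filter_upwards [hΦ ⟨β, hβ⟩] with x hx
    rw [hx]
  · intro κ hκ
    have h1 : -p ∈ closure ((LinearMap.range Φ : Submodule ℝ (Lp H 2 μ)) : Set (Lp H 2 μ)) := by
      have h2 : -p ∈ V := V.neg_mem hp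
      rw [hV] at h2
      exact h2
    obtain ⟨s, ⟨β, rfl⟩, hs⟩ := Metric.mem_closure_iff.1 h1 (Real.sqrt κ) (Real.sqrt_pos.2 hκ)
    rw [dist_eq_norm] at hs
    have h3 : (fun x => u0 x + β.1 x - (U - p : Lp H 2 μ) x) =ᵐ[μ]
        (Φ β + p : Lp H 2 μ) := by
      filter_upwards [hUa, hΦ β, Lp.coeFn_sub U p, Lp.coeFn_add (Φ β) p] with x h4 h5 h6 h7
      rw [h6, h7, Pi.sub_apply, Pi.add_apply, h4, h5]
      abel
    refine ⟨β.1, β.2, (memLp_congr_ae h3).2 (Lp.memLp _), ?_⟩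
    have h4 : ∫ x, ‖u0 x + β.1 x - (U - p : Lp H 2 μ) x‖ ^ 2 ∂μ = ‖Φ β + p‖ ^ 2 := by
      rw [← nsq]
      refine integral_congr_ae ?_
      filter_upwards [h3] with x hx
      rw [hx]
    rw [h4]
    have h5 : ‖Φ β + p‖ = ‖-p - Φ β‖ := by
      rw [← norm_neg (-p - Φ β)]
      congr 1
      abel
    rw [h5]
    have h6 := Real.sq_sqrt hκ.le
    have h7 := norm_nonneg (-p - Φ β)
    nlinarith

theorem hHPJ (hNrm : TNrm) : THpj := by
  intro n j w hw hwpos A S hS u0 hu0 hu0A hint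
  obtain ⟨hN1, -⟩ := hNrm n j
  -- the Hilbert space of values
  obtain ⟨A', hA'⟩ : ∃ A' : Submodule ℝ (EuclideanSpace ℝ (Fin j → Fin n)),
      A' = A.comap (WithLp.linearEquiv 2 ℝ ((Fin j → Fin n) → ℝ)).toLinearMap := ⟨_, rfl⟩
  have memA : ∀ t : Tn n j, (WithLp.toLp 2 t : EuclideanSpace ℝ (Fin j → Fin n)) ∈ A' ↔ t ∈ A := by
    intro t
    rw [hA']
    exact Iff.rfl
  have memA' : ∀ t : A', (WithLp.ofLp t.1 : Tn n j) ∈ A := by
    intro t
    exact (memA _).1 t.2
  obtain ⟨fct, hfct⟩ : ∃ c : ℝ, c = (j.factorial : ℝ) := ⟨_, rfl⟩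
  have hf0 : 0 < fct := by
    rw [hfct]
    exact_mod_cast j.factorial_pos
  have hnorm : ∀ t : A', ‖t‖ ^ 2 = fct * q2 (WithLp.ofLp t.1 : Tn n j) := by
    intro t
    rw [(hN1 _).2.2, ← hfct, mul_div_cancel₀ _ hf0.ne']
    exact EuclideanSpace.real_norm_sq_eq t.1
  have hinner : ∀ s t : A', inner ℝ s t =
      fct * ipt (WithLp.ofLp s.1 : Tn n j) (WithLp.ofLp t.1) := by
    intro s t
    rw [ipt, ← hfct, mul_div_cancel₀ _ hf0.ne']
    rw [Submodule.coe_inner, PiLp.inner_apply]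
    refine Finset.sum_congr rfl fun I _ => ?_
    simp [mul_comm]
  -- the measure
  obtain ⟨wN, hwN⟩ : ∃ wN : E n → ℝ≥0, wN = fun x => Real.toNNReal (w x) := ⟨_, rfl⟩
  have hwx : ∀ x, (wN x : ℝ) = w x := fun x => by
    rw [hwN]
    exact Real.coe_toNNReal _ (hwpos x).le
  have hwNc : Continuous wN := by
    rw [hwN]
    exact continuous_real_toNNReal.comp hw
  have hwNm : Measurable wN := hwNc.measurable
  obtain ⟨μ, hμ⟩ : ∃ μ : Measure (E n), μ = volume.withDensity (fun x => (wN x : ℝ≥0∞)) :=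
    ⟨_, rfl⟩
  have hac : μ ≪ volume := by
    rw [hμ]
    exact withDensity_absolutelyContinuous _ _
  have hac' : volume ≪ μ := by
    rw [hμ]
    refine withDensity_absolutelyContinuous' (hwNm.coe_nnreal_ennreal.aemeasurable) ?_
    refine Eventually.of_forall fun x => ?_
    rw [Ne, ENNReal.coe_eq_zero]
    intro h0
    have h1 := hwx x
    rw [h0] at h1
    exact (hwpos x).ne h1
  -- integrals
  have keyI : ∀ F : E n → A', Integrable (fun x => q2 (WithLp.ofLp (F x).1 : Tn n j) * w x) ↔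
      Integrable (fun x => ‖F x‖ ^ 2) μ := by
    intro F
    rw [hμ, integrable_withDensity_iff_integrable_smul hwNm]
    have e1 : (fun x => wN x • ‖F x‖ ^ 2) =
        fun x => fct * (q2 (WithLp.ofLp (F x).1 : Tn n j) * w x) := by
      funext x
      rw [NNReal.smul_def, smul_eq_mul, hwx, hnorm]
      ring
    rw [e1, integrable_const_mul_iff (IsUnit.mk0 _ hf0.ne')]
  have keyS : ∀ F : E n → A', ∫ x, ‖F x‖ ^ 2 ∂μ =
      fct * ∫ x, q2 (WithLp.ofLp (F x).1 : Tn n j) * w x := by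
    intro F
    rw [hμ, integral_withDensity_eq_integral_smul hwNm, ← integral_const_mul]
    refine integral_congr_ae (Eventually.of_forall fun x => ?_)
    simp only [NNReal.smul_def, smul_eq_mul]
    rw [hwx, hnorm]
    ring
  have keyP : ∀ F G : E n → A', ∫ x, inner ℝ (F x) (G x) ∂μ =
      fct * ∫ x, ipt (WithLp.ofLp (F x).1 : Tn n j) (WithLp.ofLp (G x).1) * w x := by
    intro F G
    rw [hμ, integral_withDensity_eq_integral_smul hwNm, ← integral_const_mul]
    refine integral_congr_ae (Eventually.of_forall fun x => ?_)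
    simp only [NNReal.smul_def, smul_eq_mul]
    rw [hwx, hinner]
    ring
  -- lifting functions
  have lift : ∀ u : E n → Tn n j, Continuous u → (∀ x, u x ∈ A) →
      Integrable (fun x => q2 (u x) * w x) →
      ∃ F : E n → A', MemLp F 2 μ ∧ ∀ x, (WithLp.ofLp (F x).1 : Tn n j) = u x := by
    intro u hu huA hi
    refine ⟨fun x => ⟨WithLp.toLp 2 (u x), (memA _).2 (huA x)⟩, ?_, fun x => rfl⟩
    have hc : Continuous fun x => (⟨WithLp.toLp 2 (u x), (memA _).2 (huA x)⟩ : A') :=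
      Continuous.subtype_mk ((PiLp.continuous_toLp 2 _).comp hu) _
    rw [memLp_two_iff_integrable_sq_norm hc.aestronglyMeasurable]
    exact (keyI _).1 hi
  have hSi : ∀ β ∈ S, Integrable (fun x => q2 (β x) * w x) := by
    intro β hβ
    obtain ⟨h1, h2, -⟩ := hS β hβ
    have h3 : Continuous fun x => q2 (β x) * w x := by
      have h4 : (fun x => q2 (β x) * w x) = fun x => (∑ I, β x I ^ 2) / j.factorial * w x := by
        funext x
        rw [(hN1 _).2.2]
      rw [h4]
      refine Continuous.mul (Continuous.div_const ?_ _) hw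
      exact continuous_finsetSum _ fun I _ => ((continuous_apply I).comp h1).pow 2
    refine h3.integrable_of_hasCompactSupport ?_
    refine h2.mono' ?_
    intro x hx
    refine subset_tsupport _ ?_
    intro h5
    apply hx
    simp only [h5]
    rw [(hN1 _).2.2]
    simp
  -- the space of lifted functions
  let S' : Submodule ℝ (E n → A') :=
    { carrier := {F | (fun x => (WithLp.ofLp (F x).1 : Tn n j)) ∈ S}
      add_mem' := fun {F G} hF hG => S.add_mem hF hG
      zero_mem' := S.zero_mem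
      smul_mem' := fun c F hF => S.smul_mem c hF }
  have hS' : ∀ F ∈ S', MemLp F 2 μ := by
    intro F hF
    have hF' : (fun x => (WithLp.ofLp (F x).1 : Tn n j)) ∈ S := hF
    obtain ⟨G, hG1, hG2⟩ := lift _ (hS _ hF').1 (hS _ hF').2.2 (hSi _ hF')
    have : F = G := by
      funext x
      refine Subtype.ext ?_
      have h1 := hG2 x
      exact (WithLp.ofLp_injective 2 h1).symm
    rw [this]
    exact hG1
  obtain ⟨U, hU1, hU2⟩ := lift u0 hu0 hu0A hint
  obtain ⟨η, hη, hηle, hηo, hηa⟩ := proj μ S' hS' U hU1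
  have hηi : Integrable (fun x => ‖η x‖ ^ 2) μ :=
    (memLp_two_iff_integrable_sq_norm hη.aestronglyMeasurable).1 hη
  refine ⟨fun x => (WithLp.ofLp (η x).1 : Tn n j), fun x => memA' _, ?_, (keyI η).2 hηi, ?_, ?_, ?_⟩
  · have hc : Continuous fun t : A' => (WithLp.ofLp t.1 : Tn n j) :=
      (PiLp.continuous_ofLp 2 _).comp continuous_subtype_val
    exact hc.comp_aestronglyMeasurable (hη.aestronglyMeasurable.mono_ac hac')
  · rw [keyS, keyS] at hηle
    have h1 := le_of_mul_le_mul_left hηle hf0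
    simp only [hU2] at h1
    exact h1
  · intro β hβ
    obtain ⟨G, hG1, hG2⟩ := lift β (hS _ hβ).1 (hS _ hβ).2.2 (hSi _ hβ)
    have hGS : G ∈ S' := by
      change (fun x => (WithLp.ofLp (G x).1 : Tn n j)) ∈ S
      have : (fun x => (WithLp.ofLp (G x).1 : Tn n j)) = β := funext hG2
      rw [this]
      exact hβ
    have h1 := hηo G hGS
    rw [keyP] at h1
    have h2 := (mul_eq_zero.1 h1).resolve_left hf0.ne'
    simp only [hG2] at h2
    exact h2
  · intro κ hκ
    obtain ⟨G, hGS, hG1, hG2⟩ := hηa (fct * κ) (by positivity)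
    have e1 : ∀ x, (WithLp.ofLp (U x + G x - η x).1 : Tn n j) =
        u0 x + (WithLp.ofLp (G x).1 : Tn n j) - (WithLp.ofLp (η x).1 : Tn n j) := by
      intro x
      rw [← hU2]
      rfl
    refine ⟨fun x => (WithLp.ofLp (G x).1 : Tn n j), hGS, ?_, ?_⟩
    · have h1 := (keyI fun x => U x + G x - η x).2
        ((memLp_two_iff_integrable_sq_norm hG1.aestronglyMeasurable).1 hG1)
      simp only [e1] at h1
      exact h1
    · rw [keyS] at hG2
      have h1 := le_of_mul_le_mul_left hG2 hf0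
      simp only [e1] at h1
      exact h1

end Helper37.DSH
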